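import Pool.Agent.Lib.MP_20e1d9_lc.FptFinal

/-!
Spanning tree congestion is W[1]-hard on `k`-outerplanar graphs, parameterized by `k`.
-/

set_option autoImplicit false

namespace Pool.Agent.Results.MP_20e1d9_lc.WOneHard

open Pool.Agent.Lib.MP_20e1d9_lc

/-- First part: a parameterized reduction, computable in polynomial time, from Clique
parameterized by the size `κ` of the clique to the problem `stc G ≤ K` on connected
`k`-outerplanar graphs parameterized by `k`: a pair `(Γ, κ)` is sent to a pair `(G, K)` where `G`
is connected and `(40 κ² + 25)`-outerplanar, and `Γ` has a clique with `κ` vertices if and only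
if the spanning tree congestion of `G` is at most `K`.

Second part: if the optimisation problem STC is fixed-parameter tractable on `k`-outerplanar
graphs, parameterized by `k`, then Clique is fixed-parameter tractable. -/
theorem result :
    (∃ f : List Pool.Agent.Lib.MP_9c2350_lc.Sym → List Pool.Agent.Lib.MP_9c2350_lc.Sym,
      Nonempty (Turing.TM2ComputableInPolyTime id id f) ∧
      ∀ (N κ : ℕ) (Γ : SimpleGraph (Fin N)), ∃ (n K : ℕ) (G : SimpleGraph (Fin n)),
        f (encInst Γ κ) = encInst G K ∧ G.Connected ∧ KOuterplanar G (40 * κ ^ 2 + 25) ∧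
        ((∃ C : Finset (Fin N), Γ.IsNClique κ C) ↔ stc G ≤ K)) ∧
    (STCFpt → CliqueFpt) :=
  ⟨reduction, cliqueFpt_of_stcFpt⟩

end Pool.Agent.Results.MP_20e1d9_lc.WOneHard
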